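import Pool.Agent.T2H92.SR.Model
import Pool.Agent.T2H92.SR.Dim9

/-!
# The isometry group of the trivializable sub-Riemannian seven sphere has dimension nine

The definitions used in the statement are in `Pool/Agent/T2H92/SR/Model.lean`.
-/

set_option autoImplicit false

open scoped Manifold ContDiff Matrix
open Pool.Agent.T2H92.SRM

namespace Pool.Agent.Results.MP_fad7c9_gt.IsometryGroupDim

/-- explicit integer matrices, used to show that Clifford quadruples exist -/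
def exB : Fin 4 → Matrix (Fin 8) (Fin 8) ℤ
  | 0 => !![0,-1,0,0,0,0,0,0; 1,0,0,0,0,0,0,0; 0,0,0,-1,0,0,0,0; 0,0,1,0,0,0,0,0;
            0,0,0,0,0,1,0,0; 0,0,0,0,-1,0,0,0; 0,0,0,0,0,0,0,1; 0,0,0,0,0,0,-1,0]
  | 1 => !![0,0,-1,0,0,0,0,0; 0,0,0,1,0,0,0,0; 1,0,0,0,0,0,0,0; 0,-1,0,0,0,0,0,0;
            0,0,0,0,0,0,1,0; 0,0,0,0,0,0,0,-1; 0,0,0,0,-1,0,0,0; 0,0,0,0,0,1,0,0]
  | 2 => !![0,0,0,-1,0,0,0,0; 0,0,-1,0,0,0,0,0; 0,1,0,0,0,0,0,0; 1,0,0,0,0,0,0,0;
            0,0,0,0,0,0,0,1; 0,0,0,0,0,0,1,0; 0,0,0,0,0,-1,0,0; 0,0,0,0,-1,0,0,0]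
  | 3 => !![0,0,0,0,-1,0,0,0; 0,0,0,0,0,-1,0,0; 0,0,0,0,0,0,-1,0; 0,0,0,0,0,0,0,-1;
            1,0,0,0,0,0,0,0; 0,1,0,0,0,0,0,0; 0,0,1,0,0,0,0,0; 0,0,0,1,0,0,0,0]

theorem exB_skew (i : Fin 4) : (exB i)ᵀ = -exB i := by
  revert i; decide

theorem exB_cliff (i j : Fin 4) : exB i * exB j + exB j * exB i = if i = j then -2 else 0 := by
  revert i j; decide +kernel

theorem exists_quadruple : ∃ A, IsCliffordQuadruple A := by
  let f : Matrix (Fin 8) (Fin 8) ℤ →+* Matrix (Fin 8) (Fin 8) ℝ := (Int.castRingHom ℝ).mapMatrix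
  refine ⟨fun i => f (exB i), fun i => ?_, fun i j => ?_⟩
  · have h1 : f ((exB i)ᵀ) = (f (exB i))ᵀ := rfl
    rw [← h1, exB_skew, map_neg]
  · rw [← map_mul, ← map_mul, ← map_add, exB_cliff]
    split_ifs
    · rw [map_neg, map_ofNat]
      ext a b
      simp only [Matrix.neg_apply, Matrix.ofNat_apply, Matrix.smul_apply, Matrix.one_apply,
        smul_eq_mul]
      split_ifs <;> simp
    · exact map_zero f

theorem horizontal_iff (A : Fin 4 → Matrix (Fin 8) (Fin 8) ℝ) (x : S7) (v : Tan x) :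
    Horizontal A x v ↔ v ∈ Pool.Agent.T2H92.SR.Hor A x := by
  refine Iff.trans ?_ (Pool.Agent.T2H92.SR.mem_Hor (A := A) (x := x) (v := v)).symm
  refine exists_congr fun c => ?_
  rw [Pool.Agent.T2H92.SR.Aw_apply]
  rfl

theorem iso_iff (A : Fin 4 → Matrix (Fin 8) (Fin 8) ℝ) (f : S7 ≃ₜ S7) :
    IsSRIsometry A f ↔ ∃ φ : Diffeomorph (𝓡 7) (𝓡 7) Pool.Agent.T2H92.SR.S7
      Pool.Agent.T2H92.SR.S7 ∞, Pool.Agent.T2H92.SR.IsSRIsometry A φ ∧ φ.toHomeomorph = f := by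
  constructor
  · intro h
    let φ : Diffeomorph (𝓡 7) (𝓡 7) Pool.Agent.T2H92.SR.S7 Pool.Agent.T2H92.SR.S7 ∞ :=
      { toEquiv := f.toEquiv
        contMDiff_toFun := h.smooth
        contMDiff_invFun := h.smooth_symm }
    refine ⟨φ, ⟨fun x v hv => ?_, fun x v hv w hw => ?_⟩, rfl⟩
    · exact (horizontal_iff A (f x) _).1 (h.map_hor x v ((horizontal_iff A x v).2 hv))
    · exact h.isometric x v w ((horizontal_iff A x v).2 hv) ((horizontal_iff A x w).2 hw)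
  · rintro ⟨φ, h, rfl⟩
    refine ⟨φ.contMDiff_toFun, φ.contMDiff_invFun, fun x v hv => ?_, fun x v w hv hw => ?_⟩
    · exact (horizontal_iff A (φ x) _).2 (h.map_hor x v ((horizontal_iff A x v).1 hv))
    · exact h.isometric x v ((horizontal_iff A x v).1 hv) w ((horizontal_iff A x w).1 hw)

/-- **The isometry group of `𝕊⁷_T` has dimension `9`.** Clifford quadruples exist, and for each of
them the sub-Riemannian isometries of `𝕊⁷_T` form a group of homeomorphisms of `𝕊⁷` which, with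
the compact-open topology, is a Lie group of dimension `9`. -/
theorem result : (∃ A, IsCliffordQuadruple A) ∧ ∀ A, IsCliffordQuadruple A →
    ∃ G : Subgroup (S7 ≃ₜ S7), (∀ f, f ∈ G ↔ IsSRIsometry A f) ∧ IsLieGroupOfDim 9 G := by
  refine ⟨exists_quadruple, fun A hA => ?_⟩
  have hA' : Pool.Agent.T2H92.SR.IsCliffordQuadruple A := ⟨hA.skew, hA.clifford⟩
  let Θ : Pool.Agent.T2H92.SR.linGroup A →* (S7 ≃ₜ S7) := Pool.Agent.T2H92.SR.Theta A
  have hΘ : Function.Injective Θ := Pool.Agent.T2H92.SR.Theta_injective A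
  have hemb : Topology.IsClosedEmbedding fun g => (Θ g : C(S7, S7)) :=
    Pool.Agent.T2H92.SR.isClosedEmbedding_Theta A
  refine ⟨Θ.range, fun f => ?_, ?_⟩
  · rw [iso_iff, MonoidHom.mem_range]
    have h1 := congrArg (fun s : Set (S7 ≃ₜ S7) => f ∈ s) (Pool.Agent.T2H92.SR.range_Theta hA')
    exact Iff.of_eq h1
  · refine Pool.Agent.T2H92.LG.lie_nine hA' (MonoidHom.ofInjective hΘ) ?_
    have h1 : Topology.IsInducing fun f : S7 ≃ₜ S7 => (f : C(S7, S7)) := ⟨rfl⟩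
    have h2 : Topology.IsInducing fun x : Θ.range => ((x : S7 ≃ₜ S7) : C(S7, S7)) :=
      h1.comp Topology.IsInducing.subtypeVal
    have h3 : Topology.IsInducing (MonoidHom.ofInjective hΘ) := by
      have h4 : Topology.IsInducing ((fun x : Θ.range => ((x : S7 ≃ₜ S7) : C(S7, S7))) ∘
        MonoidHom.ofInjective hΘ) := hemb.isInducing
      exact (h2.of_comp_iff).1 h4
    exact ⟨h3, (MonoidHom.ofInjective hΘ).injective⟩

end Pool.Agent.Results.MP_fad7c9_gt.IsometryGroupDim
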